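import Pool.Agent.H25.P4I.GfF

/-!
# P4I, labels with gain over a closed frame: the own slopes

`gf_af3`: the own slopes satisfy the relation of the labels with gain.
-/

set_option autoImplicit false

namespace Pool.P4I

open Finset Real MvPolynomial
open Pool.Agent.H49.Ent Pool.Agent.H32.Dense Pool.STK Pool.STAT Pool.MIC.Frm Pool.FRM
open Pool.MIC.Fru (gw nat_gw nat_gw0 atT_tri atT_deg)
open Pool.P4L (tz Lw lv_ok)
open Pool.P4

open Classical in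
/-- **The own slopes.** -/
theorem gf_af3 (n K : ℕ) (C C' C₁ : ℝ) (hC : 0 ≤ C) (hC' : 0 ≤ C') (hC₁ : 0 ≤ C₁) :
    ∃ c' : ℝ, 0 ≤ c' ∧
    ∀ (D : NDat2) (U : GnL D) (R : ℕ → Prop) (K₁ J a₀ w₀ z M Q : ℕ) (lam gam : ℕ → ℝ) (κ : ℝ)
      (q : D.Ω → ℝ), D.Ok2 n K₁ J a₀ w₀ z M lam gam κ C₁ q → U.Ok n K₁ J a₀ w₀ z M Q R C₁ q →
      K₁ ≤ K → 1 ≤ z → (∀ l, 1 ≤ l → l ≤ n → lam l = 1) → ∀ (i i₂ j r r' a y c k : ℕ)
      (ys : Fin k → ℕ) (gs : Fin c → ℕ), Ix3 n c k (sl gam n) (gp gam n) (ab gam n) ys gs → Dic n (sl gam n) (gr gam n) →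
      Num n M i j r r' y gam (sl gam n) (gr gam n) →
      ∀ (P V : ℕ → PN) (ω : D.Ω), 0 < q ω → P3i D n K z M i i₂ j r r' a y gam C P ω →
      Frs D n K z i j r r' C P V ω → GoodU D U n J w₀ z M R C' ω →
      ∀ (nu : ℕ → ℝ) (S : ℕ → ℕ → ℝ) (τ : ℝ), 0 ≤ τ →
      (∀ b : ℕ → ℝ, b 0 = D.X ω 0 → (∀ k, sl gam n k → |nat (D.g i j) P b k| ≤ exp (1 * z)) →
        (∀ u, gr gam n u → b u = eval b (D.Ψ (i - r') (j + r) ω u)) → ∀ u, gr gam n u →
        |nat (D.g i j) P b u - (nu u + ∑ k ∈ (range n).filter (sl gam n),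
          S u k * nat (D.g i j) P b k)| ≤ τ) →
      ∀ v : Fin c, Ct n R (gs v) → ∀ e : Fin k,
      |∑ u, cvL U n R (D.g i j) P (D.wn J w₀ ω) (gs v) (gs u) * S (gs u) (ys e) -
        slL U n R (D.g i j) P (D.wn J w₀ ω) (gs v) (ys e) (D.X ω)| ≤
        exp (c' * z) * (τ + 1 / 2 ^ (y * z)) := by
  obtain ⟨c₁, c₀, h1, hu⟩ := p3_u3 n K C C' C₁ hC hC' hC₁
  obtain ⟨c₂, h2, hst⟩ := sheet_thin n K C C₁ 0 hC hC₁ le_rfl
  obtain ⟨c₃, h3, hdif⟩ := exp_dif3 n K c₀ c₁ c₂ h1 h2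
  obtain ⟨c₄, h4, hMM⟩ := MM_le n K c₁ h1
  have hn0 : (0 : ℝ) ≤ n := Nat.cast_nonneg n
  refine ⟨c₃ + c₂ + (n + c₄) + 3, by positivity, ?_⟩
  intro D U R K₁ J a₀ w₀ z M Q lam gam κ q hO hU hK hz hlam i i₂ j r r' a y c k ys gs hI hdi hN P V ω
    hω hP hF hG nu S τ hτ hsh v hv e
  have hzr : (1 : ℝ) ≤ z := by exact_mod_cast hz
  obtain ⟨hL, hUt, s0, s1, s2⟩ := hu D U R K₁ J a₀ w₀ z M Q lam gam κ q hO hU hK hz hlam i i₂ j r
    r' a y P ω hP hG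
  have hPt := hP.tg.tri
  obtain ⟨F, hF'⟩ : ∃ F : ℕ → PN, F = D.Ψ (i - r') (j + r) ω := ⟨_, rfl⟩
  have hFt : TriN F := by
    rw [hF']
    exact hO.G_tri _ _ _
  -- the points of the own sheet
  obtain ⟨pb, hpb⟩ : ∃ pb : (ℕ → ℝ) → ℕ → ℝ, pb = fun ζ =>
    xsh (sl gam n) (gr gam n) (D.X ω 0) P F (n + 1) (ps P ζ) := ⟨_, rfl⟩
  have pb0 : ∀ ζ, pb ζ 0 = D.X ω 0 := fun ζ => by
    rw [hpb]
    exact xsh_zero hdi hPt hFt
  have pbs : ∀ ζ, ∀ k, sl gam n k → nat (D.g i j) P (pb ζ) k = 2 ^ D.g i j k * ζ k := by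
    intro ζ k hk
    have hk1 := hdi.s1 k hk
    rw [nat_eq, hpb]
    simp only
    rw [xsh_slow hdi hPt hFt hk, if_pos (by omega), zs_ps hPt]
  have pbg : ∀ ζ, ∀ u, gr gam n u → pb ζ u = eval (pb ζ) (D.Ψ (i - r') (j + r) ω u) := by
    intro ζ u hu
    rw [hpb, ← hF']
    exact xsh_grp hdi hPt hFt hu
  have pnr : ∀ ζ, (∀ k, sl gam n k → |2 ^ D.g i j k * ζ k| ≤ 1) →
      Near D a₀ z i j r r' (sl gam n) (gr gam n) P ω (exp (0 * z)) (n + 1) (pb ζ) := by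
    intro ζ hζ
    refine ⟨?_, fun k hk _ => ?_, fun u hu _ => ?_⟩
    · rw [pb0, sub_self, abs_zero]
      positivity
    · rw [pbs ζ k hk, zero_mul, exp_zero]
      exact hζ k hk
    · rw [← pbg ζ u hu, sub_self, abs_zero]
      positivity
  have h1e : (1 : ℝ) ≤ exp (1 * z) := ex_one zero_le_one hzr
  obtain ⟨ζe, hζe⟩ : ∃ ζ : ℕ → ℝ, ζ = fun k => if k = ys e then 1 / 2 ^ D.g i j k else 0 :=
    ⟨_, rfl⟩
  have nze : ∀ k, 2 ^ D.g i j k * ζe k = if k = ys e then 1 else 0 := by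
    intro k
    rw [hζe]
    simp only
    split_ifs
    · field_simp
    · rw [mul_zero]
  have bze : ∀ k, |2 ^ D.g i j k * ζe k| ≤ 1 := by
    intro k
    rw [nze]
    split_ifs
    · rw [abs_one]
    · rw [abs_zero]
      exact zero_le_one
  have bz0 : ∀ k : ℕ, |2 ^ D.g i j k * (0 : ℝ)| ≤ 1 := by
    intro k
    rw [mul_zero, abs_zero]
    exact zero_le_one
  obtain ⟨x, hx⟩ : ∃ x, x = pb ζe := ⟨_, rfl⟩
  obtain ⟨x', hx'⟩ : ∃ x', x' = pb (fun _ => 0) := ⟨_, rfl⟩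
  have A := hst D U R K₁ J a₀ w₀ z M Q lam gam κ q hO hU hK hz hlam i j r r' y _ _ hN ω hω P V hF
    (gs v) hv (hI.gs_gp v).1 x (by rw [hx]; exact pnr ζe fun k _ => bze k)
  have A' := hst D U R K₁ J a₀ w₀ z M Q lam gam κ q hO hU hK hz hlam i j r r' y _ _ hN ω hω P V
    hF (gs v) hv (hI.gs_gp v).1 x' (by rw [hx']; exact pnr (fun _ => 0) fun k _ => bz0 k)
  have hln := hv.2.1
  have t0 : nat (D.g i j) P x 0 = nat (D.g i j) P (D.X ω) 0 := by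
    unfold nat
    rw [ev0 hPt x (D.X ω), hx, pb0]
  have t0' : nat (D.g i j) P x' 0 = nat (D.g i j) P (D.X ω) 0 := by
    unfold nat
    rw [ev0 hPt x' (D.X ω), hx', pb0]
  have key := hdif z y r a c k (sl gam n) (gp gam n) (ab gam n) ys gs _ _ _ hz hI hL P
    (uL U n R P (D.wn J w₀ ω)) hP.tg hUt s0 s1 s2 v x x' (fun k hk => A.1 k (by omega))
    (fun k hk => A'.1 k (by omega)) 0 le_rfl (by rw [t0, t0', sub_self, abs_zero])
  have eU : uL U n R P (D.wn J w₀ ω) (gs v) = U.UL (gs v) (D.wn J w₀ ω) := by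
    unfold uL
    exact sysU_ct hv
  rw [eU, t0', add_zero] at key
  -- slow coordinates
  have sx : ∀ k, sl gam n k → nat (D.g i j) P x k = if k = ys e then 1 else 0 := fun k hk => by
    rw [hx, pbs ζe k hk, nze]
  have sx' : ∀ k, sl gam n k → nat (D.g i j) P x' k = 0 := fun k hk => by
    rw [hx', pbs _ k hk, mul_zero]
  have esum : ∑ e', (kap (D.g i j) P (uL U n R P (D.wn J w₀ ω)) (gs v) (ys e') +
        ka1 (D.g i j) P (uL U n R P (D.wn J w₀ ω)) (gs v) (ys e') *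
          nat (D.g i j) P (D.X ω) 0) *
        (nat (D.g i j) P x (ys e') - nat (D.g i j) P x' (ys e')) =
      slL U n R (D.g i j) P (D.wn J w₀ ω) (gs v) (ys e) (D.X ω) := by
    rw [Finset.sum_eq_single e]
    · rw [sx _ (hI.ys_sl e), sx' _ (hI.ys_sl e), if_pos rfl, sub_zero, mul_one]
      rfl
    · intro e' _ he'
      rw [sx _ (hI.ys_sl e'), sx' _ (hI.ys_sl e'), if_neg (fun h => he' (hI.ys_in h)), sub_self,
        mul_zero]
    · intro h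
      exact absurd (mem_univ e) h
  rw [esum] at key
  -- the group
  have hy : ∀ u : Fin c, |(nat (D.g i j) P x (gs u) - nat (D.g i j) P x' (gs u)) -
      S (gs u) (ys e)| ≤ 2 * τ := by
    intro u
    have a1 := hsh x (by rw [hx]; exact pb0 _) (fun k hk => by
      rw [sx k hk]
      split_ifs
      · rw [abs_one]
        exact h1e
      · rw [abs_zero]
        exact (exp_pos _).le) (by rw [hx]; exact pbg ζe) (gs u) (hI.gs_gp u).1
    have a2 := hsh x' (by rw [hx']; exact pb0 _) (fun k hk => by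
      rw [sx' k hk, abs_zero]
      exact (exp_pos _).le) (by rw [hx']; exact pbg _) (gs u) (hI.gs_gp u).1
    have e1 : ∑ k ∈ (range n).filter (sl gam n), S (gs u) k * nat (D.g i j) P x k =
        S (gs u) (ys e) := by
      rw [Finset.sum_eq_single (ys e)]
      · rw [sx _ (hI.ys_sl e), if_pos rfl, mul_one]
      · intro k hk hne
        rw [mem_filter] at hk
        rw [sx k hk.2, if_neg hne, mul_zero]
      · intro h
        exact absurd (mem_filter.2 ⟨mem_range.2 (hdi.s1 _ (hI.ys_sl e)).2, hI.ys_sl e⟩) h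
    have e2 : ∑ k ∈ (range n).filter (sl gam n), S (gs u) k * nat (D.g i j) P x' k = 0 := by
      refine Finset.sum_eq_zero fun k hk => ?_
      rw [mem_filter] at hk
      rw [sx' k hk.2, mul_zero]
    rw [e1] at a1
    rw [e2, add_zero] at a2
    have e3 : (nat (D.g i j) P x (gs u) - nat (D.g i j) P x' (gs u)) - S (gs u) (ys e) =
        (nat (D.g i j) P x (gs u) - (nu (gs u) + S (gs u) (ys e))) -
          (nat (D.g i j) P x' (gs u) - nu (gs u)) := by ring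
    rw [e3]
    refine (abs_sub _ _).trans ?_
    linarith
  have hMb : ∀ u : Fin c, |cvL U n R (D.g i j) P (D.wn J w₀ ω) (gs v) (gs u)| ≤
      exp (c₄ * z) := fun u =>
    hMM z _ P (uL U n R P (D.wn J w₀ ω)) hzr hP.tg hUt s0 (gs v) hln.le (gs u)
  have hgs : |∑ u, cvL U n R (D.g i j) P (D.wn J w₀ ω) (gs v) (gs u) *
      ((nat (D.g i j) P x (gs u) - nat (D.g i j) P x' (gs u)) - S (gs u) (ys e))| ≤
      c * (exp (c₄ * z) * (2 * τ)) := by
    have := sum_bd univ (fun u : Fin c => cvL U n R (D.g i j) P (D.wn J w₀ ω) (gs v) (gs u) *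
      ((nat (D.g i j) P x (gs u) - nat (D.g i j) P x' (gs u)) - S (gs u) (ys e)))
      (B := exp (c₄ * z) * (2 * τ)) (fun u _ => by
        rw [abs_mul]
        exact mul_le_mul (hMb u) (hy u) (abs_nonneg _) (exp_pos _).le)
    rwa [card_univ, Fintype.card_fin] at this
  obtain ⟨L, hLd⟩ : ∃ L : ℝ, L = slL U n R (D.g i j) P (D.wn J w₀ ω) (gs v) (ys e) (D.X ω) :=
    ⟨_, rfl⟩
  obtain ⟨G, hGd⟩ : ∃ G : ℝ, G = 2 ^ D.g i j (gs v) *
    (x (gs v) - eval x (U.UL (gs v) (D.wn J w₀ ω))) := ⟨_, rfl⟩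
  obtain ⟨G', hGd'⟩ : ∃ G' : ℝ, G' = 2 ^ D.g i j (gs v) *
    (x' (gs v) - eval x' (U.UL (gs v) (D.wn J w₀ ω))) := ⟨_, rfl⟩
  have A2 := A.2
  have A2' := A'.2
  rw [← hGd] at A2 key
  rw [← hGd'] at A2' key
  rw [← hLd] at key ⊢
  obtain ⟨T₁, hT₁⟩ : ∃ T₁ : ℝ, T₁ = ∑ u, cvL U n R (D.g i j) P (D.wn J w₀ ω) (gs v) (gs u) *
      (nat (D.g i j) P x (gs u) - nat (D.g i j) P x' (gs u)) := ⟨_, rfl⟩
  have key' : |T₁ - L - (G - G')| ≤ exp (c₃ * z) * (1 / 2 ^ (y * z)) := by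
    rw [hT₁]
    exact key
  have e4 : ∑ u, cvL U n R (D.g i j) P (D.wn J w₀ ω) (gs v) (gs u) *
      ((nat (D.g i j) P x (gs u) - nat (D.g i j) P x' (gs u)) - S (gs u) (ys e)) =
      T₁ - ∑ u, cvL U n R (D.g i j) P (D.wn J w₀ ω) (gs v) (gs u) * S (gs u) (ys e) := by
    rw [hT₁, ← Finset.sum_sub_distrib]
    exact Finset.sum_congr rfl fun u _ => by ring
  rw [e4] at hgs
  obtain ⟨T₂, hT₂⟩ : ∃ T₂ : ℝ, T₂ = ∑ u, cvL U n R (D.g i j) P (D.wn J w₀ ω) (gs v) (gs u) *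
      S (gs u) (ys e) := ⟨_, rfl⟩
  rw [← hT₂] at hgs ⊢
  have e5 : T₂ - L = (T₁ - L - (G - G')) + (G - G') - (T₁ - T₂) := by ring
  rw [e5]
  have e6 : |T₁ - L - (G - G') + (G - G') - (T₁ - T₂)| ≤
      exp (c₃ * z) * (1 / 2 ^ (y * z)) + (exp (c₂ * z) / 2 ^ (y * z) +
        exp (c₂ * z) / 2 ^ (y * z)) + c * (exp (c₄ * z) * (2 * τ)) :=
    (abs_sub _ _).trans (add_le_add ((abs_add_le _ _).trans (add_le_add key'
      ((abs_sub _ _).trans (add_le_add A2 A2')))) hgs)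
  refine e6.trans ?_
  have h22 : (2 : ℝ) ≤ exp (1 * z) := by
    have := Real.add_one_le_exp (1 * (z : ℝ))
    linarith
  have m1 : exp (c₃ * z) + 2 * exp (c₂ * z) ≤ exp ((c₃ + c₂ + (n + c₄) + 3) * z) := by
    have g1 : 2 * exp (c₂ * z) ≤ exp ((c₂ + 1) * z) := by
      calc 2 * exp (c₂ * z) ≤ exp (1 * z) * exp (c₂ * z) := by gcongr
        _ = _ := by rw [← exp_add]; ring_nf
    refine (add_le_add le_rfl g1).trans ((ex_add hzr).trans (ex_mono ?_ hzr))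
    rw [abs_of_nonneg h3, abs_of_nonneg (by linarith)]
    linarith
  have m2 : (c : ℝ) * (exp (c₄ * z) * 2) ≤ exp ((c₃ + c₂ + (n + c₄) + 3) * z) := by
    have hcc : (c : ℝ) ≤ exp (n * z) := by
      have h5 : (c : ℝ) ≤ n := by exact_mod_cast hI.c_le
      have := Real.add_one_le_exp ((n : ℝ) * z)
      nlinarith
    calc (c : ℝ) * (exp (c₄ * z) * 2) ≤ exp (n * z) * (exp (c₄ * z) * exp (1 * z)) := by gcongr
      _ = exp ((n + c₄ + 1) * z) := by rw [← exp_add, ← exp_add]; ring_nf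
      _ ≤ _ := ex_mono (by linarith) hzr
  have e7 : exp (c₃ * z) * (1 / 2 ^ (y * z)) + (exp (c₂ * z) / 2 ^ (y * z) +
      exp (c₂ * z) / 2 ^ (y * z)) + c * (exp (c₄ * z) * (2 * τ)) =
      (c * (exp (c₄ * z) * 2)) * τ + (exp (c₃ * z) + 2 * exp (c₂ * z)) *
        (1 / 2 ^ (y * z)) := by ring
  rw [e7, mul_add (exp ((c₃ + c₂ + (n + c₄) + 3) * z))]
  exact add_le_add (mul_le_mul_of_nonneg_right m2 hτ)
    (mul_le_mul_of_nonneg_right m1 (by positivity))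

end Pool.P4I
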