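import Pool.Agent.H25.P4I.GfI
import Pool.Agent.H35.P4I.EndS
import Pool.Agent.H35.P4I.Cma
import Pool.Agent.H52.P4.Nbt

/-!
# P4I: the labels with gain, in the letters of the assembly

`gfS`: the statement `GfS` of the last assembly.
-/

set_option autoImplicit false

namespace Pool.P4I

open Finset Real MvPolynomial Matrix
open Pool.Agent.H49.Ent Pool.Agent.H32.Dense Pool.STK Pool.STAT Pool.MIC.Frm Pool.MIC7 Pool.FRM
open Pool.GSD
open Pool.LBL (Ld)
open Pool.P4 hiding GfS Hyp Plc Geo Stp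

open Classical in
/-- **(GF)**, in the letters of the assembly. -/
theorem gfS : GfS := by
  intro n K K' c k C₀ C₁ Cu gam hC₀ hC₁ hCu
  obtain ⟨B, hB, hbox⟩ := nbt_box n (max K K') C₀ C₁ hC₀ hC₁
  obtain ⟨C₂, hC₂, hgf⟩ := gf3 n (max K K') C₀ C₁ Cu B hC₀ hC₁ hCu (by linarith)
  refine ⟨C₂, hC₂, fun C hC => ?_⟩
  obtain ⟨C₃, hC₃⟩ : ∃ C₃ : ℝ, C₃ = C₂ + 2 * C₁ + 1 := ⟨_, rfl⟩
  refine ⟨C₃, by rw [hC₃]; linarith, ?_⟩
  intro D U R J a₀ w₀ z M w i j r r' r'' a y X Q lam κ q E P S ys gs H hPl hG hgd hU Fz hFz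
  have hF := H.fxI hPl hG hgd
  have hzr : (1 : ℝ) ≤ z := by exact_mod_cast hF.z1
  have hI : Ix3 n c k (sl gam n) (gp gam n) (ab gam n) ys gs :=
    { ys_sl := H.ys_sl
      ys_in := H.ys_in
      ys_on := H.ys_on
      gs_gp := H.gs_gp
      gs_in := H.gs_in
      gs_on := H.gs_on
      dic := fun l h1 h2 => kinds H.gamn h1 h2
      s1 := fun l hl => ⟨hl.1, hl.2.1⟩
      g1 := fun l hl => ⟨hl.1.1, hl.1.2.1⟩
      a1 := fun l hl => ⟨hl.1, hl.2.1⟩
      sg := fun l hl h => sl_gr hl h.1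
      sa := fun l hl => sl_ab hl
      ag := fun l hl => ab_gp hl }
  have haz : exp (C₂ * z) ≤ 2 ^ (a * z) := by
    have h1 := H.yX
    have h2 : exp (C * z) ≤ exp (C * z) * 2 ^ X :=
      le_mul_of_one_le_right (exp_pos _).le (one_le_pow₀ one_le_two)
    have h3 : (2 : ℝ) ^ (y * z) ≤ 2 ^ (a * z) :=
      pow_le_pow_right₀ one_le_two (Nat.mul_le_mul_right z hF.ya)
    exact (ex_mono hC hzr).trans (h2.trans (h1.trans h3))
  obtain ⟨fD, fL, p0, p1, hd⟩ := hgf D U R K K' J a₀ w₀ z M w i j r r' r'' a y Q c k lam gam κ q E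
    P S ys gs hF H.gamn hPl hG hU hI H.w1 H.w2 haz
  have hCt : ∀ g, g ∈ Fz → Ct n R (gs g) := fun g hg =>
    ⟨(hI.g1 _ (H.gs_gp g)).1, ((hFz g).1 hg).1, ((hFz g).1 hg).2⟩
  have he : exp (C₂ * z) ≤ exp (C₃ * z) := ex_mono (by rw [hC₃]; linarith) hzr
  have hs : (0 : ℝ) ≤ 1 / 2 ^ (y * z) + 1 / 2 ^ (Q * z) := by positivity
  refine ⟨fD, fL, p0, p1, ?_⟩
  refine
    { ldD := fun x g _ => ⟨(hd.ldD x g).1, fun u => ((hd.ldD x g).2 u).trans he⟩
      ldL := fun x g _ => ⟨(hd.ldL x g).1, fun u => ((hd.ldL x g).2 u).trans he⟩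
      pb := fun x g _ a => ⟨(hd.sz x g a).1.trans he, (hd.sz x g a).2.1.trans he⟩
      pz := fun x g _ a h => (hd.sz x g a).2.2 h
      cl := ?_
      af := ?_
      bx := ?_ }
  · rintro ω ⟨hω, hgu⟩ g hg l
    have h1 := hd.cl ω hω hgu g (hCt g hg) l
    have e1 : (fD (D.pt ω) g ᵥ*
        MF i j r E (rcd D i j r a) (cMx D J a₀ z i j r a E P gs) ω) l =
        ∑ v, fD (D.pt ω) g v * cM D J a₀ z i j r a E P (bb D i j r ω) (rcd D i j r a ω) (gs v)
          (gs l) := by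
      unfold MF
      rw [if_pos hω]
      unfold cMx
      simp only [Matrix.vecMul, dotProduct, Matrix.of_apply]
    rw [e1]
    exact h1.trans (mul_le_mul_of_nonneg_right he hs)
  · rintro ω ⟨hω, hgu⟩ g hg b
    refine (hd.af ω hω hgu g (hCt g hg) b).trans ?_
    rw [← mul_one_div]
    exact mul_le_mul he (le_add_of_nonneg_right (by positivity)) (by positivity) (exp_pos _).le
  · rintro ω ⟨hω, hgu⟩ l g hg hgl b hb
    have hgn := hI.g1 _ (H.gs_gp l)
    have hct := hCt g hg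
    have hr1 := hPl.stp.s2'
    have hy1 := hPl.y1
    have hjr := hF.jM
    have hjM : j + 1 < M := by omega
    have hbx := hbox D K K' J a₀ w₀ z M i j r r' a y lam gam κ q E P _ _ hF hjM H.gam0 U R Q hU ω
      hω (gs l) hgn.2 b hb
    have lv := lev2 hF.ok hF.iM.le hjM.le (i₂ := i) hF.iM.le (j₂ := j) (by omega) hct.1
      hct.2.1.le
    rw [abs_le] at lv
    push_cast at lv
    have hp : (2 : ℝ) ^ D.g i j (gs g) ≤ exp (2 * C₁ * z) * 2 ^ D.g i (j + 1) (gs g) := by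
      refine pw_le ?_ (by positivity)
      have : 0 ≤ gam (gs g) * z := mul_nonneg (H.gam0 _) (by linarith)
      nlinarith [lv.1, lv.2]
    have key := hd.bx ω hω hgu g hct b
      (hb.1.trans (div_le_div_of_nonneg_right (one_le_exp (by positivity)) (by positivity)))
      (fun l' _ h2 => hbx l' (h2.trans hgl)) (exp (2 * C₁ * z) / 2 ^ (Q * z)) (by
        refine ((hb.2 (gs g) hct.1 hgl).2 hct.2.2).trans ?_
        rw [div_div, div_le_div_iff₀ (by positivity) (by positivity), one_mul, pow_add]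
        have := mul_le_mul_of_nonneg_right hp (show (0 : ℝ) ≤ 2 ^ (Q * z) by positivity)
        linarith)
    refine key.trans ?_
    have f1 : exp (2 * C₁ * z) / 2 ^ (Q * z) ≤
        exp (2 * C₁ * z) * (1 / 2 ^ (y * z) + 1 / 2 ^ (Q * z)) := by
      rw [← mul_one_div]
      exact mul_le_mul_of_nonneg_left (le_add_of_nonneg_left (by positivity)) (exp_pos _).le
    have f2 : exp (2 * C₁ * z) + exp (C₂ * z) ≤ exp (C₃ * z) := by
      have g1 : (1 : ℝ) ≤ exp (2 * C₁ * z) := one_le_exp (by positivity)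
      have g2 : (1 : ℝ) ≤ exp (C₂ * z) := one_le_exp (by positivity)
      have g3 : (2 : ℝ) ≤ exp (1 * z) := by
        have := Real.add_one_le_exp (1 * (z : ℝ))
        linarith
      calc exp (2 * C₁ * z) + exp (C₂ * z) ≤ 2 * (exp (2 * C₁ * z) * exp (C₂ * z)) := by nlinarith
        _ ≤ exp (1 * z) * (exp (2 * C₁ * z) * exp (C₂ * z)) :=
          mul_le_mul_of_nonneg_right g3 (by positivity)
        _ = _ := by
          rw [← exp_add, ← exp_add, hC₃]
          ring_nf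
    calc _ ≤ (exp (2 * C₁ * z) + exp (C₂ * z)) * (1 / 2 ^ (y * z) + 1 / 2 ^ (Q * z)) := by
          rw [add_mul]
          exact add_le_add f1 le_rfl
      _ ≤ _ := mul_le_mul_of_nonneg_right f2 hs

end Pool.P4I
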