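import Pool.Agent.H25.P4.LinE
import Pool.Agent.H35.P4I.Stm

/-!
# P4I, lines over a closed frame: two samples and levels, with coordinates above the target

As `Pool.Agent.H25.P4.LinB, LinC, LinD, LinE`; `ga` are the coordinates of the proper group.
-/

set_option autoImplicit false

namespace Pool.P4IL

open Finset Real MvPolynomial
open Pool.Agent.H49.Ent Pool.Agent.H32.Dense Pool.STK
open Pool.STAT Pool.MIC.Frm Pool.FRM Pool.P4L
open Pool.P4 (t0 rt pp PthC thd sl gr bb ze zt z0 be)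
open Pool.SYS35 (nrm_nonneg')

/-- **Two points at two times**: the differences are equal up to a small error. -/
theorem diff_twoG {n N : ℕ} {F : PN} (hv : F.vars ⊆ range n) (hN : F.totalDegree ≤ N)
    {g : ℕ → ℕ} {l : ℕ} {B S δ : ℝ} (hB : 1 ≤ B) (hS : 0 ≤ S) (hδ : 0 ≤ δ) (sl ga : ℕ → Prop)
    (hF : ∀ α, Sm g l F S 1 α)
    (hs : ∀ α ∈ exs n N, (∃ k, 1 ≤ k ∧ α k ≠ 0) → (∀ k, 1 ≤ k → α k ≠ 0 → ¬ sl k) →
      Sm g l F S δ α ∨ ∃ k, 1 ≤ k ∧ ga k ∧ α = Finsupp.single k 1) {b b' c c' : ℕ → ℝ}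
    (hb : ∀ i < n, |b i| ≤ B / 2 ^ g i)
    (hb' : ∀ i < n, |b' i| ≤ B / 2 ^ g i) (hc : ∀ i < n, |c i| ≤ B / 2 ^ g i)
    (hc' : ∀ i < n, |c' i| ≤ B / 2 ^ g i) (h0 : b 0 = b' 0) (h0' : c 0 = c' 0)
    (hsb : ∀ i < n, sl i → |b i| ≤ B * δ / 2 ^ g i)
    (hsb' : ∀ i < n, sl i → |b' i| ≤ B * δ / 2 ^ g i)
    (hsc : ∀ i < n, sl i → |c i| ≤ B * δ / 2 ^ g i)
    (hsc' : ∀ i < n, sl i → |c' i| ≤ B * δ / 2 ^ g i)
    (hd : ∀ i < n, 1 ≤ i → ga i → |c i - b i| ≤ B * δ / 2 ^ g i)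
    (hd' : ∀ i < n, 1 ≤ i → ga i → |c' i - b' i| ≤ B * δ / 2 ^ g i) :
    |(eval c F - eval c' F) - (eval b F - eval b' F)| ≤
      (exs n N).card * (4 * B ^ (n * N + 1) * S) * δ / 2 ^ g l := by
  rw [eval_mon hv hN, eval_mon hv hN, eval_mon hv hN b, eval_mon hv hN b',
    ← Finset.sum_sub_distrib, ← Finset.sum_sub_distrib, ← Finset.sum_sub_distrib]
  refine (Finset.abs_sum_le_sum_abs _ _).trans ?_
  have hBN : 0 ≤ B ^ (n * N) := by positivity
  have hBN1 : B ^ (n * N) ≤ B ^ (n * N + 1) := pow_le_pow_right₀ hB (by omega)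
  have hB1 : B ≤ B ^ (n * N + 1) := by
    calc B = B ^ 1 := (pow_one B).symm
      _ ≤ _ := pow_le_pow_right₀ hB (by omega)
  have key : ∀ α ∈ exs n N, |(coeff α F * mon α c - coeff α F * mon α c') -
      (coeff α F * mon α b - coeff α F * mon α b')| ≤
      (4 * B ^ (n * N + 1) * S) * δ / 2 ^ g l := by
    intro α hα
    have g0 : (0 : ℝ) < 2 ^ g l := by positivity
    have hw : (0 : ℝ) ≤ (1 / 2) ^ Finsupp.weight g α := by positivity
    by_cases h1 : ∃ k, 1 ≤ k ∧ α k ≠ 0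
    swap
    · push Not at h1
      rw [mon_time h1 h0, mon_time h1 h0', sub_self, sub_self, sub_self, abs_zero]
      positivity
    have four : ∀ x y u v : ℝ, |x| ≤ B ^ (n * N) * S * δ / 2 ^ g l →
        |y| ≤ B ^ (n * N) * S * δ / 2 ^ g l → |u| ≤ B ^ (n * N) * S * δ / 2 ^ g l →
        |v| ≤ B ^ (n * N) * S * δ / 2 ^ g l →
        |(x - y) - (u - v)| ≤ (4 * B ^ (n * N + 1) * S) * δ / 2 ^ g l := by
      intro x y u v hx hy hu hv
      have e1 : B ^ (n * N) * S * δ / 2 ^ g l ≤ B ^ (n * N + 1) * S * δ / 2 ^ g l :=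
        div_le_div_of_nonneg_right (mul_le_mul_of_nonneg_right
          (mul_le_mul_of_nonneg_right hBN1 hS) hδ) g0.le
      have e2 : (4 * B ^ (n * N + 1) * S) * δ / 2 ^ g l =
        4 * (B ^ (n * N + 1) * S * δ / 2 ^ g l) := by ring
      rw [abs_le] at hx hy hu hv ⊢
      rw [e2]
      constructor <;> linarith [hx.1, hx.2, hy.1, hy.2, hu.1, hu.2, hv.1, hv.2]
    by_cases h2 : ∃ k, 1 ≤ k ∧ α k ≠ 0 ∧ sl k
    · obtain ⟨k, -, hk, hsk⟩ := h2
      have hkn := exs_lt hα (Finsupp.mem_support_iff.2 hk)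
      have one : ∀ b : ℕ → ℝ, (∀ i < n, |b i| ≤ B / 2 ^ g i) → |b k| ≤ B * δ / 2 ^ g k →
          |coeff α F * mon α b| ≤ B ^ (n * N) * S * δ / 2 ^ g l := by
        intro b hb hbk
        have h3 := mon_small hB hδ hα hb hk hbk
        have h4 : |coeff α F| * (1 / 2) ^ Finsupp.weight g α ≤ S * 1 / 2 ^ g l := hF α
        rw [abs_mul]
        calc |coeff α F| * |mon α b| ≤ |coeff α F| *
              (B ^ (n * N) * (1 / 2) ^ Finsupp.weight g α * δ) :=
              mul_le_mul_of_nonneg_left h3 (abs_nonneg _)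
          _ = (B ^ (n * N) * δ) * (|coeff α F| * (1 / 2) ^ Finsupp.weight g α) := by ring
          _ ≤ (B ^ (n * N) * δ) * (S * 1 / 2 ^ g l) :=
              mul_le_mul_of_nonneg_left h4 (by positivity)
          _ = B ^ (n * N) * S * δ / 2 ^ g l := by ring
      exact four _ _ _ _ (one c hc (hsc k hkn hsk)) (one c' hc' (hsc' k hkn hsk))
        (one b hb (hsb k hkn hsk)) (one b' hb' (hsb' k hkn hsk))
    push Not at h2
    rcases hs α hα h1 h2 with h4 | ⟨k, hk1, hns, hk⟩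
    · unfold Sm at h4
      have one : ∀ b : ℕ → ℝ, (∀ i < n, |b i| ≤ B / 2 ^ g i) →
          |coeff α F * mon α b| ≤ B ^ (n * N) * S * δ / 2 ^ g l := by
        intro b hb
        have h3 := mon_le hB hα hb
        rw [abs_mul]
        calc |coeff α F| * |mon α b| ≤ |coeff α F| *
              (B ^ (n * N) * (1 / 2) ^ Finsupp.weight g α) :=
              mul_le_mul_of_nonneg_left h3 (abs_nonneg _)
          _ = B ^ (n * N) * (|coeff α F| * (1 / 2) ^ Finsupp.weight g α) := by ring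
          _ ≤ B ^ (n * N) * (S * δ / 2 ^ g l) := mul_le_mul_of_nonneg_left h4 (by positivity)
          _ = B ^ (n * N) * S * δ / 2 ^ g l := by ring
      exact four _ _ _ _ (one c hc) (one c' hc') (one b hb) (one b' hb')
    · have hka : α k ≠ 0 := by
        rw [hk, Finsupp.single_eq_same]
        exact one_ne_zero
      have hkn := exs_lt hα (Finsupp.mem_support_iff.2 hka)
      have h4 : |coeff α F| * (1 / 2) ^ Finsupp.weight g α ≤ S * 1 / 2 ^ g l := hF α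
      rw [hk] at h4 ⊢
      rw [Finsupp.weight_single, one_smul, half_pow] at h4
      simp only [mon_single]
      have e1 : (coeff (Finsupp.single k 1) F * c k - coeff (Finsupp.single k 1) F * c' k) -
          (coeff (Finsupp.single k 1) F * b k - coeff (Finsupp.single k 1) F * b' k) =
          coeff (Finsupp.single k 1) F * ((c k - b k) - (c' k - b' k)) := by ring
      rw [e1, abs_mul]
      have h5 : |(c k - b k) - (c' k - b' k)| ≤ 2 * (B * δ / 2 ^ g k) := by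
        have a1 := hd k hkn hk1 hns
        have a2 := hd' k hkn hk1 hns
        refine (abs_sub _ _).trans ?_
        linarith
      calc |coeff (Finsupp.single k 1) F| * |(c k - b k) - (c' k - b' k)| ≤
            |coeff (Finsupp.single k 1) F| * (2 * (B * δ / 2 ^ g k)) :=
            mul_le_mul_of_nonneg_left h5 (abs_nonneg _)
        _ = (2 * B * δ) * (|coeff (Finsupp.single k 1) F| * (1 / 2 ^ g k)) := by ring
        _ ≤ (2 * B * δ) * (S * 1 / 2 ^ g l) := mul_le_mul_of_nonneg_left h4 (by positivity)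
        _ = (2 * B * S) * δ / 2 ^ g l := by ring
        _ ≤ _ := by
            refine div_le_div_of_nonneg_right (mul_le_mul_of_nonneg_right
              (mul_le_mul_of_nonneg_right ?_ hS) hδ) g0.le
            linarith
  refine (Finset.sum_le_sum key).trans (le_of_eq ?_)
  rw [Finset.sum_const, nsmul_eq_mul]
  ring


section core

variable {N l : ℕ} {P Q : ℕ → PN} {g : ℕ → ℕ} {B S δ : ℝ} {sl ga : ℕ → Prop}

theorem core_twoG (hQ : TriN Q) (hv : (chr Q (P l - Q l)).vars ⊆ range l)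
    (hN : (chr Q (P l - Q l)).totalDegree ≤ N) (hB : 1 ≤ B) (hS : 0 ≤ S) (hδ : 0 ≤ δ)
    (hF : ∀ α, Sm g l (chr Q (P l - Q l)) S 1 α)
    (hs : ∀ α ∈ exs l N, (∃ k, 1 ≤ k ∧ α k ≠ 0) → (∀ k, 1 ≤ k → α k ≠ 0 → ¬ sl k) →
      Sm g l (chr Q (P l - Q l)) S δ α ∨ ∃ k, 1 ≤ k ∧ ga k ∧ α = Finsupp.single k 1)
    {x x' y y' : ℕ → ℝ}
    (hb : ∀ i < l, |zs Q x i| ≤ B / 2 ^ g i) (hb' : ∀ i < l, |zs Q x' i| ≤ B / 2 ^ g i)
    (hc : ∀ i < l, |zs Q y i| ≤ B / 2 ^ g i) (hc' : ∀ i < l, |zs Q y' i| ≤ B / 2 ^ g i)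
    (h0 : zs Q x 0 = zs Q x' 0) (h0' : zs Q y 0 = zs Q y' 0)
    (hsb : ∀ i < l, sl i → |zs Q x i| ≤ B * δ / 2 ^ g i)
    (hsb' : ∀ i < l, sl i → |zs Q x' i| ≤ B * δ / 2 ^ g i)
    (hsc : ∀ i < l, sl i → |zs Q y i| ≤ B * δ / 2 ^ g i)
    (hsc' : ∀ i < l, sl i → |zs Q y' i| ≤ B * δ / 2 ^ g i)
    (hd : ∀ i ≤ l, 1 ≤ i → ga i → |zs Q y i - zs Q x i| ≤ B * δ / 2 ^ g i)
    (hd' : ∀ i ≤ l, 1 ≤ i → ga i → |zs Q y' i - zs Q x' i| ≤ B * δ / 2 ^ g i)
    (l1 : 1 ≤ l) (hnl : ga l) :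
    |(zs P y l - zs P x l) - (zs P y' l - zs P x' l)| ≤
      (2 * B + (exs l N).card * (4 * B ^ (l * N + 1) * S)) * δ / 2 ^ g l := by
  have h1 := diff_twoG hv hN hB hS hδ sl ga hF hs hb hb' hc hc' h0 h0' hsb hsb' hsc hsc'
    (fun i hi => hd i hi.le) (fun i hi => hd' i hi.le)
  rw [zs_two hQ, zs_two hQ x, zs_two hQ y', zs_two hQ x']
  have e : zs Q y l - eval (zs Q y) (chr Q (P l - Q l)) -
      (zs Q x l - eval (zs Q x) (chr Q (P l - Q l))) -
      (zs Q y' l - eval (zs Q y') (chr Q (P l - Q l)) -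
        (zs Q x' l - eval (zs Q x') (chr Q (P l - Q l)))) =
      ((zs Q y l - zs Q x l) - (zs Q y' l - zs Q x' l)) -
        ((eval (zs Q y) (chr Q (P l - Q l)) - eval (zs Q y') (chr Q (P l - Q l))) -
          (eval (zs Q x) (chr Q (P l - Q l)) - eval (zs Q x') (chr Q (P l - Q l)))) := by ring
  rw [e]
  have h2 := abs_sub (zs Q y l - zs Q x l) (zs Q y' l - zs Q x' l)
  have h3 := hd l le_rfl l1 hnl
  have h4 := hd' l le_rfl l1 hnl
  refine (abs_sub _ _).trans ?_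
  have e2 : (2 * B + (exs l N).card * (4 * B ^ (l * N + 1) * S)) * δ / 2 ^ g l =
      B * δ / 2 ^ g l + B * δ / 2 ^ g l +
        (exs l N).card * (4 * B ^ (l * N + 1) * S) * δ / 2 ^ g l := by ring
  rw [e2]
  linarith


end core

/-! ### Levels -/

/-- **Levels** at the base place (`g`), the place `L` (`gL`), `L₃` (`g3`), `L''` (`gM`), the coarser
places (`g1`: a longer window, `g2`: a larger radius), for the three kinds of coordinates. -/
structure Lv3 (n c y z r a : ℕ) (sl gp ab : ℕ → Prop) (g gL g3 gM g1 g2 : ℕ → ℕ) : Prop where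
  kinds : ∀ l, 1 ≤ l → l ≤ n → sl l ∨ gp l ∨ ab l
  t1 : g1 0 + r * z = g 0
  t2 : g2 0 = g 0
  ya : y ≤ a
  o1 : ∀ l, 1 ≤ l → l ≤ n → sl l → g l + y * z ≤ g1 l + r * z + c * z
  o2 : ∀ l, 1 ≤ l → l ≤ n → gp l → g l + y * z ≤ g1 l + 2 * (r * z) + c * z
  l1 : ∀ l, 1 ≤ l → l ≤ n → sl l → g l + y * z ≤ gL l + c * z
  l2 : ∀ l, 1 ≤ l → l ≤ n → gp l → g l + y * z ≤ gL l + r * z + c * z
  l3 : ∀ l, 1 ≤ l → l ≤ n → ¬ ab l → g l + y * z ≤ g3 l + c * z
  m1 : ∀ l, 1 ≤ l → l ≤ n → g l + y * z ≤ gM l + c * z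
  q1 : ∀ k, 1 ≤ k → k ≤ n → g2 k + a * z ≤ g k + c * z
  q2 : ∀ l, 1 ≤ l → l ≤ n → g l ≤ g2 l + a * z + c * z
  s1 : ∀ l k, 1 ≤ l → l ≤ n → 1 ≤ k → k ≤ n → sl l → ¬ sl k →
    g1 k + g l + y * z ≤ g k + g1 l + c * z
  s2 : ∀ l k, 1 ≤ l → l ≤ n → 1 ≤ k → k ≤ n → gp l → ¬ sl k →
    g1 k + g1 0 + g l + y * z ≤ g k + g 0 + g1 l + c * z
  s3 : ∀ l k, 1 ≤ l → l ≤ n → 1 ≤ k → k ≤ n → ¬ ab l → ab k →
    g1 k + g l + y * z ≤ g k + g1 l + c * z

section

variable {n c y z r a : ℕ} {sl gp ab : ℕ → Prop} {g gL g3 gM g1 g2 : ℕ → ℕ}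

theorem Lv3.quad (h : Lv3 n c y z r a sl gp ab g gL g3 gM g1 g2) {l N k k' : ℕ} {γ : ℕ →₀ ℕ}
    (l1 : 1 ≤ l) (ln : l ≤ n) (k1 : 1 ≤ k) (k1' : 1 ≤ k')
    (hα : Finsupp.single k 1 + (Finsupp.single k' 1 + γ) ∈ exs l N) :
    Finsupp.weight g2 (Finsupp.single k 1 + (Finsupp.single k' 1 + γ)) + g l + y * z ≤
      Finsupp.weight g (Finsupp.single k 1 + (Finsupp.single k' 1 + γ)) + g2 l +
        (n * N + 3) * (c * z) := by
  have hlt : ∀ i, (Finsupp.single k 1 + (Finsupp.single k' 1 + γ) : ℕ →₀ ℕ) i ≠ 0 → i < l :=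
    fun i hi => exs_lt hα (Finsupp.mem_support_iff.2 hi)
  have hk : k < l := hlt k (by
    rw [Finsupp.add_apply, Finsupp.single_eq_same]
    omega)
  have hk' : k' < l := hlt k' (by
    rw [Finsupp.add_apply, Finsupp.add_apply, Finsupp.single_eq_same]
    omega)
  have hγ : ∀ i, γ i ≠ 0 → i < l := fun i hi => hlt i (by
    rw [Finsupp.add_apply, Finsupp.add_apply]
    omega)
  have hdeg := exs_deg hα
  rw [← Finsupp.degree_apply, map_add, map_add, Finsupp.degree_single, Finsupp.degree_single]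
    at hdeg
  have hd2 : γ.degree ≤ n * N := by
    have : l * N ≤ n * N := Nat.mul_le_mul_right N ln
    omega
  have hw := wt_le (d := g) (d' := g2) (e := c * z) hγ fun i hi => by
    rcases Nat.eq_zero_or_pos i with h0 | h0
    · rw [h0, h.t2]
      exact Nat.le_add_right _ _
    · have := h.q1 i h0 (by omega)
      omega
  rw [map_add, map_add, map_add, map_add, Finsupp.weight_single, Finsupp.weight_single,
    Finsupp.weight_single, Finsupp.weight_single, one_smul, one_smul, one_smul, one_smul]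
  have e1 := h.q1 k k1 (by omega)
  have e2 := h.q1 k' k1' (by omega)
  have e3 := h.q2 l l1 ln
  have e4 : y * z ≤ a * z := Nat.mul_le_mul_right z h.ya
  have e5 : γ.degree * (c * z) ≤ n * N * (c * z) := Nat.mul_le_mul_right _ hd2
  have e6 : (n * N + 3) * (c * z) = n * N * (c * z) + 3 * (c * z) := by ring
  omega

/-- A linear coefficient. -/
theorem Lv3.lin (h : Lv3 n c y z r a sl gp ab g gL g3 gM g1 g2) {l k m : ℕ}
    (h1 : g1 k + g l + y * z ≤ g k + g1 l + c * z) :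
    Finsupp.weight g1 (Finsupp.single k 1 + Finsupp.single 0 m) + g l + y * z ≤
      Finsupp.weight g (Finsupp.single k 1 + Finsupp.single 0 m) + g1 l + c * z := by
  rw [map_add, map_add, Finsupp.weight_single, Finsupp.weight_single, Finsupp.weight_single,
    Finsupp.weight_single, one_smul, one_smul, smul_eq_mul, smul_eq_mul]
  have e2 : m * g1 0 ≤ m * g 0 := Nat.mul_le_mul_left m (by have := h.t1; omega)
  omega

theorem Lv3.lin2 (h : Lv3 n c y z r a sl gp ab g gL g3 gM g1 g2) {l k m : ℕ}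
    (h1 : g1 k + g1 0 + g l + y * z ≤ g k + g 0 + g1 l + c * z) :
    Finsupp.weight g1 (Finsupp.single k 1 + Finsupp.single 0 (m + 1)) + g l + y * z ≤
      Finsupp.weight g (Finsupp.single k 1 + Finsupp.single 0 (m + 1)) + g1 l + c * z := by
  rw [map_add, map_add, Finsupp.weight_single, Finsupp.weight_single, Finsupp.weight_single,
    Finsupp.weight_single, one_smul, one_smul, smul_eq_mul, smul_eq_mul]
  have e2 : m * g1 0 ≤ m * g 0 := Nat.mul_le_mul_left m (by have := h.t1; omega)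
  have e3 : (m + 1) * g1 0 = m * g1 0 + g1 0 := by ring
  have e4 : (m + 1) * g 0 = m * g 0 + g 0 := by ring
  omega

/-- Small coefficients, common form: `vs` the visible (small) coordinates. -/
theorem Lv3.sm_gen (h : Lv3 n c y z r a sl gp ab g gL g3 gM g1 g2) {F : PN} {l N : ℕ} {S : ℝ}
    (hS : 0 ≤ S) (l1 : 1 ≤ l) (ln : l ≤ n) {vs : ℕ → Prop}
    (hs : ∀ k, 1 ≤ k → k ≤ n → ¬ vs k → g1 k + g l + y * z ≤ g k + g1 l + c * z)
    (h1 : nrm g1 (1 / 2) F ≤ S / 2 ^ g1 l)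
    (h2 : nrm g2 (1 / 2) F ≤ S / 2 ^ g2 l) {α : ℕ →₀ ℕ} (hα : α ∈ exs l N)
    (ha : ∃ k, 1 ≤ k ∧ α k ≠ 0) (hn : ∀ k, 1 ≤ k → α k ≠ 0 → ¬ vs k) :
    Sm g l F (S * 2 ^ ((n * N + 3) * (c * z))) (1 / 2 ^ (y * z)) α := by
  obtain ⟨k, k1, hk⟩ := ha
  have hkl := exs_lt hα (Finsupp.mem_support_iff.2 hk)
  rcases split_exp hk with ⟨k', γ, k1', e⟩ | ⟨m, e⟩
  · rw [e] at hα ⊢
    exact sm_of hS h2 (h.quad l1 ln k1 k1' hα)
  · rw [e]
    refine (sm_of hS h1 (h.lin (hs k k1 (by omega) (hn k k1 hk)))).mono ?_ (by positivity)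
    refine mul_le_mul_of_nonneg_left (pow_le_pow_right₀ one_le_two ?_) hS
    exact Nat.le_mul_of_pos_left _ (by omega)

/-- A slow label: the coefficients without slow coordinates are small. -/
theorem Lv3.sm_slow (h : Lv3 n c y z r a sl gp ab g gL g3 gM g1 g2) {F : PN} {l N : ℕ} {S : ℝ}
    (hS : 0 ≤ S) (l1 : 1 ≤ l) (ln : l ≤ n) (hl : sl l) (h1 : nrm g1 (1 / 2) F ≤ S / 2 ^ g1 l)
    (h2 : nrm g2 (1 / 2) F ≤ S / 2 ^ g2 l) {α : ℕ →₀ ℕ} (hα : α ∈ exs l N)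
    (ha : ∃ k, 1 ≤ k ∧ α k ≠ 0) (hn : ∀ k, 1 ≤ k → α k ≠ 0 → ¬ sl k) :
    Sm g l F (S * 2 ^ ((n * N + 3) * (c * z))) (1 / 2 ^ (y * z)) α :=
  h.sm_gen hS l1 ln (fun k k1 kn hk => h.s1 l k l1 ln k1 kn hl hk) h1 h2 hα ha hn

/-- A label which is not above: the coefficients with only coordinates above are small. -/
theorem Lv3.sm_abv (h : Lv3 n c y z r a sl gp ab g gL g3 gM g1 g2) {F : PN} {l N : ℕ} {S : ℝ}
    (hS : 0 ≤ S) (l1 : 1 ≤ l) (ln : l ≤ n) (hl : ¬ ab l) (h1 : nrm g1 (1 / 2) F ≤ S / 2 ^ g1 l)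
    (h2 : nrm g2 (1 / 2) F ≤ S / 2 ^ g2 l) {α : ℕ →₀ ℕ} (hα : α ∈ exs l N)
    (ha : ∃ k, 1 ≤ k ∧ α k ≠ 0) (hn : ∀ k, 1 ≤ k → α k ≠ 0 → ¬ ¬ ab k) :
    Sm g l F (S * 2 ^ ((n * N + 3) * (c * z))) (1 / 2 ^ (y * z)) α :=
  h.sm_gen hS l1 ln (vs := fun k => ¬ ab k)
    (fun k k1 kn hk => h.s3 l k l1 ln k1 kn hl (not_not.1 hk)) h1 h2 hα ha hn

/-- A label of the proper group. -/
theorem Lv3.sm_grp (h : Lv3 n c y z r a sl gp ab g gL g3 gM g1 g2) {F : PN} {l N : ℕ} {S : ℝ}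
    (hS : 0 ≤ S) (l1 : 1 ≤ l) (ln : l ≤ n) (hl : gp l) (hl' : ¬ ab l)
    (h1 : nrm g1 (1 / 2) F ≤ S / 2 ^ g1 l)
    (h2 : nrm g2 (1 / 2) F ≤ S / 2 ^ g2 l) {α : ℕ →₀ ℕ} (hα : α ∈ exs l N)
    (ha : ∃ k, 1 ≤ k ∧ α k ≠ 0) (hn : ∀ k, 1 ≤ k → α k ≠ 0 → ¬ sl k) :
    Sm g l F (S * 2 ^ ((n * N + 3) * (c * z))) (1 / 2 ^ (y * z)) α ∨
      ∃ k, 1 ≤ k ∧ gp k ∧ α = Finsupp.single k 1 := by
  obtain ⟨k, k1, hk⟩ := ha
  have hkl := exs_lt hα (Finsupp.mem_support_iff.2 hk)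
  have hkg : ¬ sl k := hn k k1 hk
  rcases split_exp hk with ⟨k', γ, k1', e⟩ | ⟨m, e⟩
  · left
    rw [e] at hα ⊢
    exact sm_of hS h2 (h.quad l1 ln k1 k1' hα)
  · rcases (h.kinds k k1 (by omega)).resolve_left hkg with hkp | hka
    · rcases Nat.eq_zero_or_pos m with hm | hm
      · right
        refine ⟨k, k1, hkp, ?_⟩
        rw [e, hm, Finsupp.single_zero, add_zero]
      · left
        obtain ⟨m', rfl⟩ : ∃ m', m = m' + 1 := ⟨m - 1, by omega⟩
        rw [e]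
        refine (sm_of hS h1 (h.lin2 (h.s2 l k l1 ln k1 (by omega) hl hkg))).mono ?_ (by positivity)
        refine mul_le_mul_of_nonneg_left (pow_le_pow_right₀ one_le_two ?_) hS
        exact Nat.le_mul_of_pos_left _ (by omega)
    · left
      rw [e]
      refine (sm_of hS h1 (h.lin (h.s3 l k l1 ln k1 (by omega) hl' hka))).mono ?_ (by positivity)
      refine mul_le_mul_of_nonneg_left (pow_le_pow_right₀ one_le_two ?_) hS
      exact Nat.le_mul_of_pos_left _ (by omega)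

end

section

variable {D : NDat2} {n K J a₀ w₀ z M : ℕ} {lam gam : ℕ → ℝ} {κ C₁ : ℝ} {q : D.Ω → ℝ}

theorem lv_of (hO : D.Ok2 n K J a₀ w₀ z M lam gam κ C₁ q)
    (hlam : ∀ l, 1 ≤ l → l ≤ n → lam l = 1) (hgn : gam n < 1 + thd gam n) (hC₁ : 0 ≤ C₁) {c : ℕ}
    (hc : 4 * C₁ + 1 ≤ c) {y r r' r'' a i j : ℕ} (hP : Pool.P4I.Plc n gam y r r' r'' a M i j) :
    Lv3 n c y z r a (sl gam n) (Pool.P4I.gp gam n) (Pool.P4I.ab gam n) (D.g i j)
      (D.g (i + r') (j - r)) (D.g (i + (r + r')) (j - r)) (D.g (i + r'') (j - r))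
      (D.g (i - 1) (j - r)) (D.g (i - a) j) := by
  have hz0 : (0 : ℝ) ≤ z := Nat.cast_nonneg z
  have hS := hP.stp
  have i2 := hP.i2
  have j1 := hP.j1
  have j2 := hP.j2
  have a1 := hP.a1
  have r1 : r' ≤ r'' := hS.s5
  have r2 : r + r' ≤ r'' := hS.s7
  have hcz' : (4 * C₁ + 1) * z ≤ c * z := mul_le_mul_of_nonneg_right hc hz0
  have hcz : 4 * C₁ * z + z ≤ c * z := by linarith
  have hi1 : 1 ≤ i := by
    have h1 := hP.y1
    have h2 := hS.s6
    omega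
  have hCz : 0 ≤ C₁ * z := mul_nonneg hC₁ hz0
  have ejr : ((j - r : ℕ) : ℝ) = j - r := by rw [Nat.cast_sub j1]
  have eia : ((i - a : ℕ) : ℝ) = i - a := by rw [Nat.cast_sub a1]
  have ei1 : ((i - 1 : ℕ) : ℝ) = i - 1 := by rw [Nat.cast_sub hi1, Nat.cast_one]
  -- comparison with the four places
  have L0 : ∀ l, 1 ≤ l → l ≤ n → ∀ s : ℕ, i + s ≤ M →
      |(D.g i j l : ℝ) - D.g (i + s) (j - r) l - (-(s : ℝ) + gam l * r) * z| ≤ 2 * C₁ * z := by
    intro l l1 ln s hs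
    have h := lv_ok hO hlam (i₁ := i) (j₁ := j) (i₂ := i + s) (j₂ := j - r) (by omega) (by omega)
      hs (by omega) l1 ln
    rw [ejr] at h
    push_cast at h
    rw [show (i : ℝ) - (i + s) + gam l * (j - (j - r)) = -(s : ℝ) + gam l * r by ring] at h
    exact h
  have L1 : ∀ l, 1 ≤ l → l ≤ n →
      |(D.g i j l : ℝ) - D.g (i - 1) (j - r) l - (1 + gam l * r) * z| ≤ 2 * C₁ * z := by
    intro l l1 ln
    have h := lv_ok hO hlam (i₁ := i) (j₁ := j) (i₂ := i - 1) (j₂ := j - r) (by omega) (by omega)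
      (by omega) (by omega) l1 ln
    rw [ejr, ei1] at h
    rw [show (i : ℝ) - (i - 1) + gam l * (j - (j - r)) = 1 + gam l * r by ring] at h
    exact h
  have L2 : ∀ l, 1 ≤ l → l ≤ n →
      |(D.g i j l : ℝ) - D.g (i - a) j l - (a : ℝ) * z| ≤ 2 * C₁ * z := by
    intro l l1 ln
    have h := lv_ok hO hlam (i₁ := i) (j₁ := j) (i₂ := i - a) (j₂ := j) (by omega) (by omega)
      (by omega) (by omega) l1 ln
    rw [eia] at h
    rw [show (i : ℝ) - (i - a) + gam l * (j - j) = a by ring] at h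
    exact h
  have g0 : D.g i j 0 = w₀ + j * z := hO.g_zero i j
  have g1 : D.g (i - 1) (j - r) 0 = w₀ + (j - r) * z := hO.g_zero (i - 1) (j - r)
  have g2 : D.g (i - a) j 0 = w₀ + j * z := hO.g_zero (i - a) j
  have ej : (j - r) * z + r * z = j * z := by
    rw [← add_mul]
    congr 1
    omega
  have mz : ∀ {x y : ℝ}, x ≤ y → x * z ≤ y * z := fun h => mul_le_mul_of_nonneg_right h hz0
  have s2' : (r' : ℝ) + y ≤ r := by exact_mod_cast hS.s2'
  have s6 : (y : ℝ) ≤ a := by exact_mod_cast hS.s6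
  have hy0 : (0 : ℝ) ≤ y := Nat.cast_nonneg y
  have hr0 : (0 : ℝ) ≤ r := Nat.cast_nonneg r
  have grn : ∀ k, 1 ≤ k → k ≤ n → ¬ sl gam n k → gr gam n k := by
    intro k k1 kn hk
    refine ⟨k1, kn, ?_⟩
    by_contra h4
    rw [not_le] at h4
    refine hk ⟨k1, lt_of_le_of_ne kn ?_, h4⟩
    rintro rfl
    exact absurd h4 (not_lt.2 (min_le_left _ _))
  constructor
  · intro l l1 ln
    exact Pool.P4I.kinds hgn l1 ln
  · rw [g0, g1]
    omega
  · rw [g0, g2]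
  · exact hS.s6
  · -- o1
    intro l l1 ln hl
    have e1 := (abs_le.1 (L1 l l1 ln)).2
    have e2 : (gam l * r + y) * z ≤ r * z := mz (by linarith [hS.s1 l hl])
    have e3 : (D.g i j l : ℝ) + y * z ≤ D.g (i - 1) (j - r) l + r * z + c * z := by linarith
    exact_mod_cast e3
  · -- o2
    intro l l1 ln hl
    have e1 := (abs_le.1 (L1 l l1 ln)).2
    have e2 : (gam l * r + y) * z ≤ (2 * r) * z := mz (by
      have := hS.s3 l hl
      have h5 : (gam l - 1) * r = gam l * r - r := by ring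
      linarith)
    have e3 : (D.g i j l : ℝ) + y * z ≤ D.g (i - 1) (j - r) l + 2 * (r * z) + c * z := by linarith
    exact_mod_cast e3
  · -- l1
    intro l l1 ln hl
    have e1 := (abs_le.1 (L0 l l1 ln r' (by omega))).2
    have e2 : (gam l * r + y) * z ≤ r' * z := mz (hS.s1 l hl)
    have e3 : (D.g i j l : ℝ) + y * z ≤ D.g (i + r') (j - r) l + c * z := by linarith
    exact_mod_cast e3
  · -- l2
    intro l l1 ln hl
    have e1 := (abs_le.1 (L0 l l1 ln r' (by omega))).2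
    have e2 : (gam l * r + y) * z ≤ (r' + r) * z := mz (by
      have := hS.s3 l hl
      have h5 : (gam l - 1) * r = gam l * r - r := by ring
      linarith)
    have e3 : (D.g i j l : ℝ) + y * z ≤ D.g (i + r') (j - r) l + r * z + c * z := by linarith
    exact_mod_cast e3
  · -- l3
    intro l l1 ln hl
    have e1 := (abs_le.1 (L0 l l1 ln (r + r') (by omega))).2
    have e2 : (gam l * r + y) * z ≤ ((r + r' : ℕ) : ℝ) * z := mz (hS.t1 l1 ln hgn hl)
    have e3 : (D.g i j l : ℝ) + y * z ≤ D.g (i + (r + r')) (j - r) l + c * z := by linarith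
    exact_mod_cast e3
  · -- m1
    intro l l1 ln
    have e1 := (abs_le.1 (L0 l l1 ln r'' (by omega))).2
    have e2 : (gam l * r + y) * z ≤ r'' * z := mz (by
      have h4 := hS.s4 l l1 ln
      have h5 : 0 ≤ gam l * r := mul_nonneg (hO.gam_ge l) (Nat.cast_nonneg r)
      linarith)
    have e3 : (D.g i j l : ℝ) + y * z ≤ D.g (i + r'') (j - r) l + c * z := by linarith
    exact_mod_cast e3
  · -- q1
    intro l l1 ln
    have e1 := (abs_le.1 (L2 l l1 ln)).1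
    have e3 : (D.g (i - a) j l : ℝ) + a * z ≤ D.g i j l + c * z := by linarith
    exact_mod_cast e3
  · -- q2
    intro l l1 ln
    have e1 := (abs_le.1 (L2 l l1 ln)).2
    have e3 : (D.g i j l : ℝ) ≤ D.g (i - a) j l + a * z + c * z := by linarith
    exact_mod_cast e3
  · -- s1
    intro l k l1 ln k1 kn hl hk
    have e1 := (abs_le.1 (L1 l l1 ln)).2
    have e2 := (abs_le.1 (L1 k k1 kn)).1
    have e3 : (gam l * r + y) * z ≤ (gam k * r) * z := mz (by
      linarith [hS.s1 l hl, hS.s2 k (grn k k1 kn hk)])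
    have e4 : (D.g (i - 1) (j - r) k : ℝ) + D.g i j l + y * z ≤
        D.g i j k + D.g (i - 1) (j - r) l + c * z := by linarith
    exact_mod_cast e4
  · -- s2
    intro l k l1 ln k1 kn hl hk
    have e1 := (abs_le.1 (L1 l l1 ln)).2
    have e2 := (abs_le.1 (L1 k k1 kn)).1
    have e3 : (gam l * r + y) * z ≤ (gam k * r + r) * z := mz (by
      have h3 := hS.s3 l hl
      have h4 := hS.s2 k (grn k k1 kn hk)
      have h5 : (gam l - 1) * r = gam l * r - r := by ring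
      linarith)
    have e5 : (D.g (i - 1) (j - r) 0 : ℝ) + r * z = D.g i j 0 := by
      have : D.g (i - 1) (j - r) 0 + r * z = D.g i j 0 := by
        rw [g0, g1]
        omega
      exact_mod_cast this
    have e4 : (D.g (i - 1) (j - r) k : ℝ) + D.g (i - 1) (j - r) 0 + D.g i j l + y * z ≤
        D.g i j k + D.g i j 0 + D.g (i - 1) (j - r) l + c * z := by linarith
    exact_mod_cast e4
  · -- s3
    intro l k l1 ln k1 kn hl hk
    have e1 := (abs_le.1 (L1 l l1 ln)).2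
    have e2 := (abs_le.1 (L1 k k1 kn)).1
    have e3 : (gam l * r + y) * z ≤ (gam k * r) * z := mz (by
      have h3 := hS.t1 l1 ln hgn hl
      have h4 := hS.t2 hk
      linarith)
    have e4 : (D.g (i - 1) (j - r) k : ℝ) + D.g i j l + y * z ≤
        D.g i j k + D.g (i - 1) (j - r) l + c * z := by linarith
    exact_mod_cast e4

end

end Pool.P4IL
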